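import Pool.Agent.H37.CPX.Targets

/-!
# Row DAG of the board `cpx_modules`: dags of triangles
-/

namespace Pool.Agent.H99.CPX

open Finset Pool.Agent.H37.CPX

theorem small_mono {N m k w0 : ℕ} {s : Sy N m k w0} {P : ℕ}
    {Tri : PX N (P ^ 16) → PY N (P ^ 16) → Prop} {X0 X1 : Finset (PX N (P ^ 16))}
    {Y0 Y1 : Finset (PY N (P ^ 16))} {M : ℝ} (h : Small s P Tri X0 Y0 M) (hX : X1 ⊆ X0)
    (hY : Y1 ⊆ Y0) : Small s P Tri X1 Y1 M :=
  fun F hF G hG hT => h F (hF.trans hX) G (hG.trans hY) hT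

/-- removing few small sets -/
theorem rem_small {V α : Type} [Fintype V] [DecidableEq α] (A : Finset α) (I : Finset V)
    (E : V → Finset α) (W t a : ℝ) (ht : 0 < t) (hW : 0 ≤ W)
    (hE : ∀ c ∈ I, ((E c).card : ℝ) * t ≤ W) (hV : 4 * (Fintype.card V : ℝ) < t)
    (ha : a ≤ (A.card : ℝ)) : a - W / 4 ≤ ((A \ I.biUnion E).card : ℝ) := by
  have h1 : (A.card : ℝ) ≤ ((A \ I.biUnion E).card : ℝ) + ((I.biUnion E).card : ℝ) := by
    have : A.card ≤ (A \ I.biUnion E).card + (I.biUnion E).card :=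
      Finset.card_le_card_sdiff_add_card
    exact_mod_cast this
  have h2 : ((I.biUnion E).card : ℝ) ≤ ∑ c ∈ I, ((E c).card : ℝ) := by
    exact_mod_cast Finset.card_biUnion_le
  have h3 : (∑ c ∈ I, ((E c).card : ℝ)) * t ≤ (Fintype.card V : ℝ) * W := by
    rw [sum_mul]
    refine (sum_le_sum hE).trans ?_
    rw [sum_const, nsmul_eq_mul]
    refine mul_le_mul_of_nonneg_right ?_ hW
    exact_mod_cast card_le_univ I
  have h4 : (∑ c ∈ I, ((E c).card : ℝ)) ≤ W / 4 := by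
    by_contra hlt
    push Not at hlt
    have h5 : W / 4 * t ≤ (∑ c ∈ I, ((E c).card : ℝ)) * t :=
      mul_le_mul_of_nonneg_right hlt.le ht.le
    have h6 : (Fintype.card V : ℝ) * W ≤ W / 4 * t := by
      have : 4 * (Fintype.card V : ℝ) * W ≤ t * W := mul_le_mul_of_nonneg_right hV.le hW
      linarith
    have h7 : W / 4 * t < (∑ c ∈ I, ((E c).card : ℝ)) * t := mul_lt_mul_of_pos_right hlt ht
    linarith
  linarith

theorem pf_DAG (hD : S_DEP) (hP : S_PART) (hI : S_INN) (hL : S_LEF) (hR : S_ROO) : S_DAG := by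
  classical
  intro N m k w0 P z lam s V _ u w dp X0 v0 hnum hnode hroot hX0
  by_contra hcon
  push Not at hcon
  obtain ⟨XX, hXX⟩ : ∃ XX : V → (V → Finset (PX N (P ^ 16)) × Finset (PY N (P ^ 16))) →
      Finset (PX N (P ^ 16)), ∀ v E, XX v E =
        X0 \ (univ.filter (fun c => dp c < dp v)).biUnion (fun c => (E c).1) :=
    ⟨_, fun _ _ => rfl⟩
  obtain ⟨YY, hYY⟩ : ∃ YY : V → (V → Finset (PX N (P ^ 16)) × Finset (PY N (P ^ 16))) →
      Finset (PY N (P ^ 16)), ∀ v E, YY v E =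
        univ \ (univ.filter (fun c => dp c < dp v)).biUnion (fun c => (E c).2) :=
    ⟨_, fun _ _ => rfl⟩
  obtain ⟨Q, hQ⟩ : ∃ Q : V → (V → Finset (PX N (P ^ 16)) × Finset (PY N (P ^ 16))) →
      Finset (PX N (P ^ 16)) × Finset (PY N (P ^ 16)) → Prop, ∀ v E e, Q v E e ↔
        ((e.1.card : ℝ) * 2 ^ z ≤ ((P : ℝ) ^ 16) ^ N ∧
          (e.2.card : ℝ) * 2 ^ z ≤ ((2 : ℝ) ^ (P ^ 16)) ^ N ∧
          Small s P (Tr (u v) (w v)) (XX v E \ e.1) (YY v E \ e.2) (MM N m k w0 P z)) :=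
    ⟨_, fun _ _ _ => Iff.rfl⟩
  -- monotonicity along the dag
  have monoX : ∀ v c E, dp c < dp v → XX v E ⊆ XX c E \ (E c).1 := by
    intro v c E hc x hx
    rw [hXX, mem_sdiff, mem_biUnion] at hx
    rw [hXX, mem_sdiff, mem_sdiff, mem_biUnion]
    refine ⟨⟨hx.1, ?_⟩, ?_⟩
    · rintro ⟨d, hd, hxd⟩
      rw [mem_filter] at hd
      exact hx.2 ⟨d, by rw [mem_filter]; exact ⟨mem_univ _, hd.2.trans hc⟩, hxd⟩
    · intro hxc
      exact hx.2 ⟨c, by rw [mem_filter]; exact ⟨mem_univ _, hc⟩, hxc⟩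
  have monoY : ∀ v c E, dp c < dp v → YY v E ⊆ YY c E \ (E c).2 := by
    intro v c E hc x hx
    rw [hYY, mem_sdiff, mem_biUnion] at hx
    rw [hYY, mem_sdiff, mem_sdiff, mem_biUnion]
    refine ⟨⟨hx.1, ?_⟩, ?_⟩
    · rintro ⟨d, hd, hxd⟩
      rw [mem_filter] at hd
      exact hx.2 ⟨d, by rw [mem_filter]; exact ⟨mem_univ _, hd.2.trans hc⟩, hxd⟩
    · intro hxc
      exact hx.2 ⟨c, by rw [mem_filter]; exact ⟨mem_univ _, hc⟩, hxc⟩
  -- no alive box
  have dead : ∀ v E, (∀ c, dp c < dp v → Q c E (E c)) →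
      ¬ Alive s P (rho k P z lam) (Tr (u v) (w v)) (XX v E) (YY v E) := by
    intro v E hlow
    rcases hnode v with ⟨j, hj⟩ | ⟨v1, v2, h1, h2, h12⟩
    · exact hL N m k w0 P z lam s (Tr (u v) (w v)) (XX v E) (YY v E) j hnum
        fun x y h => hj x y h
    · have q1 := (hQ v1 E (E v1)).1 (hlow v1 h1)
      have q2 := (hQ v2 E (E v2)).1 (hlow v2 h2)
      exact hI N m k w0 P z lam s (Tr (u v) (w v)) (u v1) (u v2) (w v1) (w v2) (XX v E) (YY v E)
        hnum (fun x y h => h12 x y h) (small_mono q1.2.2 (monoX v v1 E h1) (monoY v v1 E h1))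
        (small_mono q2.2.2 (monoX v v2 E h2) (monoY v v2 E h2))
  obtain ⟨E, hE⟩ := hD V (Finset (PX N (P ^ 16)) × Finset (PY N (P ^ 16))) dp Q ⟨(∅, ∅)⟩ (by
    intro v E E' e hEE
    have a1 : XX v E = XX v E' := by
      rw [hXX, hXX]
      refine congrArg (fun S => X0 \ S) (Finset.biUnion_congr rfl fun c hc => ?_)
      rw [mem_filter] at hc
      rw [hEE c hc.2]
    have a2 : YY v E = YY v E' := by
      rw [hYY, hYY]
      refine congrArg (fun S => univ \ S) (Finset.biUnion_congr rfl fun c hc => ?_)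
      rw [mem_filter] at hc
      rw [hEE c hc.2]
    rw [hQ, hQ, a1, a2]
    exact id) (by
    intro v E hlow
    obtain ⟨e1, e2, p1, p2, p3⟩ := hP N m k w0 P z lam s (u v) (w v) (XX v E) (YY v E) hnum
      (dead v E hlow)
    exact ⟨(e1, e2), (hQ v E (e1, e2)).2 ⟨p1, p2, p3⟩⟩)
  refine dead v0 E (fun c _ => hE c) ?_
  have hQE : ∀ c, ((E c).1.card : ℝ) * 2 ^ z ≤ ((P : ℝ) ^ 16) ^ N ∧
      ((E c).2.card : ℝ) * 2 ^ z ≤ ((2 : ℝ) ^ (P ^ 16)) ^ N := fun c =>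
    ⟨((hQ c E (E c)).1 (hE c)).1, ((hQ c E (E c)).1 (hE c)).2.1⟩
  have hcY : (Fintype.card (PY N (P ^ 16)) : ℝ) = ((2 : ℝ) ^ (P ^ 16)) ^ N := by
    rw [Fintype.card_fun, Fintype.card_fun, ZMod.card, Fintype.card_fin, Fintype.card_fin]
    push_cast
    rfl
  obtain ⟨WX, hWX⟩ : ∃ WX : ℝ, WX = ((P : ℝ) ^ 16) ^ N := ⟨_, rfl⟩
  obtain ⟨WY, hWY⟩ : ∃ WY : ℝ, WY = ((2 : ℝ) ^ (P ^ 16)) ^ N := ⟨_, rfl⟩
  have hWX0 : 0 ≤ WX := by rw [hWX]; positivity
  have hWY0 : 0 ≤ WY := by rw [hWY]; positivity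
  have ht : (0 : ℝ) < 2 ^ z := by positivity
  have hXc := rem_small X0 (univ.filter (fun c => dp c < dp v0)) (fun c => (E c).1) WX (2 ^ z)
    (WX / 2) ht hWX0 (fun c _ => by rw [hWX]; exact (hQE c).1) hcon (by
      rw [hWX]
      linarith)
  have hYc := rem_small (univ : Finset (PY N (P ^ 16))) (univ.filter (fun c => dp c < dp v0))
    (fun c => (E c).2) WY (2 ^ z) WY ht hWY0 (fun c _ => by rw [hWY]; exact (hQE c).2) hcon (by
      rw [hWY, card_univ, hcY])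
  rw [← hXX] at hXc
  rw [← hYY] at hYc
  refine hR N m k w0 P z lam s (Tr (u v0) (w v0)) (XX v0 E) (YY v0 E) hnum ?_ ?_ ?_
  · intro x hx y _
    have : x ∈ X0 := by
      rw [hXX, mem_sdiff] at hx
      exact hx.1
    exact hroot x this y
  · rw [← hWX]
    linarith
  · rw [← hWY]
    linarith

end Pool.Agent.H99.CPX
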