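import Pool.Agent.H37.CPX.Targets

/-!
# Row OPB of the board `cpx_modules`: the operator norm
-/

namespace Pool.Agent.H99.CPX

open Finset Pool.Agent.H37.CPX

theorem sgn_add (a b : ZMod 2) : sgn (a + b) = sgn a * sgn b := by
  have h2 : ∀ c : ZMod 2, c = 0 ∨ c = 1 := by decide
  have h10 : (1 : ZMod 2) ≠ 0 := by decide
  have h11 : (1 : ZMod 2) + 1 = 0 := by decide
  unfold sgn
  rcases h2 a with rfl | rfl <;> rcases h2 b with rfl | rfl <;> simp [h10, h11]

theorem sgn_sq (a : ZMod 2) : sgn a = 1 ∨ sgn a = -1 := by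
  unfold sgn
  by_cases h : a = 0
  · exact Or.inl (if_pos h)
  · exact Or.inr (if_neg h)

theorem chi_pm {N : ℕ} (U : Finset (Fin N)) (z : Fin N → ZMod 2) : chi U z = 1 ∨ chi U z = -1 := by
  unfold chi
  classical
  induction U using Finset.induction_on with
  | empty => exact Or.inl (prod_empty)
  | insert i U hi ih =>
    rw [prod_insert hi]
    rcases sgn_sq (z i) with h1 | h1 <;> rcases ih with h2 | h2 <;> rw [h1, h2] <;> norm_num

theorem chi_mul_le {N : ℕ} (U : Finset (Fin N)) (z z' : Fin N → ZMod 2) :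
    chi U z * chi U z' ≤ 1 := by
  rcases chi_pm U z with h1 | h1 <;> rcases chi_pm U z' with h2 | h2 <;> rw [h1, h2] <;> norm_num

theorem chi_add {N : ℕ} (U : Finset (Fin N)) (z z' : Fin N → ZMod 2) :
    chi U (fun i => z i + z' i) = chi U z * chi U z' := by
  unfold chi
  rw [← prod_mul_distrib]
  exact prod_congr rfl fun i _ => sgn_add _ _

/-- orthogonality -/
theorem orth {N q : ℕ} (U : Finset (Fin N)) (x x' : PX N q) (i₀ : Fin N) (hi : i₀ ∈ U)
    (hne : x i₀ ≠ x' i₀) : ∑ y : PY N q, chi U (pt x y) * chi U (pt x' y) = 0 := by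
  classical
  obtain ⟨e, he⟩ : ∃ e : PY N q, e = Pi.single i₀ (Pi.single (x i₀) 1) := ⟨_, rfl⟩
  have h1 : chi U (fun i => e i (x i)) = -1 := by
    unfold chi
    rw [prod_eq_single_of_mem i₀ hi]
    · have : e i₀ (x i₀) = 1 := by rw [he, Pi.single_eq_same, Pi.single_eq_same]
      change sgn (e i₀ (x i₀)) = -1
      rw [this]
      unfold sgn
      exact if_neg (by decide)
    · intro i _ hii
      have : e i (x i) = 0 := by
        rw [he, Pi.single_eq_of_ne hii]
        rfl
      change sgn (e i (x i)) = 1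
      rw [this]
      exact if_pos rfl
  have h2 : chi U (fun i => e i (x' i)) = 1 := by
    unfold chi
    refine prod_eq_one fun i _ => ?_
    have : e i (x' i) = 0 := by
      by_cases hii : i = i₀
      · rw [hii, he, Pi.single_eq_same, Pi.single_eq_of_ne hne.symm]
      · rw [he, Pi.single_eq_of_ne hii]
        rfl
    change sgn (e i (x' i)) = 1
    rw [this]
    exact if_pos rfl
  have h3 : ∑ y : PY N q, chi U (pt x y) * chi U (pt x' y) =
      ∑ y : PY N q, chi U (pt x (y + e)) * chi U (pt x' (y + e)) :=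
    (Equiv.sum_comp (Equiv.addRight e) fun y => chi U (pt x y) * chi U (pt x' y)).symm
  have h4 : ∀ y : PY N q, chi U (pt x (y + e)) * chi U (pt x' (y + e)) =
      -(chi U (pt x y) * chi U (pt x' y)) := by
    intro y
    have a1 : chi U (pt x (y + e)) = chi U (pt x y) * chi U (fun i => e i (x i)) :=
      chi_add U (pt x y) (fun i => e i (x i))
    have a2 : chi U (pt x' (y + e)) = chi U (pt x' y) * chi U (fun i => e i (x' i)) :=
      chi_add U (pt x' y) (fun i => e i (x' i))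
    rw [a1, a2, h1, h2]
    ring
  rw [sum_congr rfl fun y _ => h4 y, sum_neg_distrib] at h3
  linarith

theorem cardY (N q : ℕ) : (Fintype.card (PY N q) : ℝ) = ((2 : ℝ) ^ q) ^ N := by
  rw [Fintype.card_fun, Fintype.card_fun, ZMod.card, Fintype.card_fin, Fintype.card_fin]
  push_cast
  rfl

theorem cardX (N q : ℕ) : (Fintype.card (PX N q) : ℝ) = (q : ℝ) ^ N := by
  rw [Fintype.card_fun, Fintype.card_fin, Fintype.card_fin]
  push_cast
  rfl

open Classical in
/-- the number of points which agree with `x` on `U` -/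
theorem card_agree {N q : ℕ} (U : Finset (Fin N)) (x : PX N q) :
    ((univ.filter fun x' : PX N q => ∀ i ∈ U, x i = x' i).card : ℝ) * (q : ℝ) ^ U.card =
      (q : ℝ) ^ N := by
  have h1 : (univ.filter fun x' : PX N q => ∀ i ∈ U, x i = x' i) =
      Fintype.piFinset fun i => if i ∈ U then {x i} else univ := by
    ext x'
    rw [mem_filter, Fintype.mem_piFinset]
    constructor
    · rintro ⟨-, h⟩ i
      by_cases hi : i ∈ U
      · rw [if_pos hi, mem_singleton]
        exact (h i hi).symm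
      · rw [if_neg hi]
        exact mem_univ _
    · intro h
      refine ⟨mem_univ _, fun i hi => ?_⟩
      have := h i
      rw [if_pos hi, mem_singleton] at this
      exact this.symm
  have h2 : ((Fintype.piFinset fun i => if i ∈ U then {x i} else (univ : Finset (Fin q))).card : ℝ)
      = ∏ i : Fin N, (if i ∈ U then 1 else (q : ℝ)) := by
    rw [Fintype.card_piFinset]
    push_cast
    refine prod_congr rfl fun i _ => ?_
    by_cases hi : i ∈ U
    · rw [if_pos hi, if_pos hi, card_singleton, Nat.cast_one]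
    · rw [if_neg hi, if_neg hi, card_univ, Fintype.card_fin]
  have h3 : (q : ℝ) ^ U.card = ∏ i : Fin N, (if i ∈ U then (q : ℝ) else 1) := by
    rw [prod_ite_mem, univ_inter, prod_const]
  rw [h1, h2, h3, ← prod_mul_distrib]
  have h4 : ∀ i : Fin N, (if i ∈ U then (1 : ℝ) else (q : ℝ)) * (if i ∈ U then (q : ℝ) else 1) =
      q := by
    intro i
    by_cases hi : i ∈ U
    · rw [if_pos hi, if_pos hi, one_mul]
    · rw [if_neg hi, if_neg hi, mul_one]
  rw [prod_congr rfl fun i _ => h4 i, prod_const, card_univ, Fintype.card_fin]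

theorem pf_OPB : S_OPB := by
  classical
  intro N q F G U
  obtain ⟨f, hf⟩ : ∃ f : PY N q → ℝ, ∀ y, f y = ∑ x ∈ F, chi U (pt x y) := ⟨_, fun _ => rfl⟩
  have e1 : ∑ x ∈ F, ∑ y ∈ G, chi U (pt x y) = ∑ y ∈ G, f y := by
    rw [sum_comm]
    exact sum_congr rfl fun y _ => (hf y).symm
  have e2 : (∑ y ∈ G, f y) ^ 2 ≤ (G.card : ℝ) * ∑ y ∈ G, f y ^ 2 := sq_sum_le_card_mul_sum_sq
  have e3 : ∑ y ∈ G, f y ^ 2 ≤ ∑ y : PY N q, f y ^ 2 :=
    sum_le_sum_of_subset_of_nonneg (subset_univ _) fun _ _ _ => sq_nonneg _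
  have e4 : ∑ y : PY N q, f y ^ 2 =
      ∑ x ∈ F, ∑ x' ∈ F, ∑ y : PY N q, chi U (pt x y) * chi U (pt x' y) := by
    have : ∀ y : PY N q, f y ^ 2 = ∑ x ∈ F, ∑ x' ∈ F, chi U (pt x y) * chi U (pt x' y) := by
      intro y
      rw [hf, pow_two, sum_mul_sum]
    rw [sum_congr rfl fun y _ => this y, sum_comm]
    refine sum_congr rfl fun x _ => ?_
    rw [sum_comm]
  obtain ⟨Y, hY⟩ : ∃ Y : ℝ, Y = (Fintype.card (PY N q) : ℝ) := ⟨_, rfl⟩
  have hY0 : 0 ≤ Y := by rw [hY]; exact Nat.cast_nonneg _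
  have hG : (G.card : ℝ) ≤ Y := by
    rw [hY]
    exact_mod_cast card_le_univ G
  have hF : (F.card : ℝ) ≤ (q : ℝ) ^ N := by
    rw [← cardX]
    exact_mod_cast card_le_univ F
  have e5 : ∀ x ∈ F, (∑ x' ∈ F, ∑ y : PY N q, chi U (pt x y) * chi U (pt x' y)) *
      (q : ℝ) ^ U.card ≤ Y * (q : ℝ) ^ N := by
    intro x _
    have a1 : ∀ x' ∈ F, ∑ y : PY N q, chi U (pt x y) * chi U (pt x' y) ≤
        if ∀ i ∈ U, x i = x' i then Y else 0 := by
      intro x' _
      by_cases h : ∀ i ∈ U, x i = x' i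
      · rw [if_pos h]
        refine (sum_le_sum fun y _ => chi_mul_le U (pt x y) (pt x' y)).trans ?_
        rw [sum_const, card_univ, nsmul_eq_mul, mul_one, hY]
      · rw [if_neg h]
        push Not at h
        obtain ⟨i, hi, hne⟩ := h
        exact (orth U x x' i hi hne).le
    have a2 : ∑ x' ∈ F, ∑ y : PY N q, chi U (pt x y) * chi U (pt x' y) ≤
        Y * ((univ.filter fun x' : PX N q => ∀ i ∈ U, x i = x' i).card : ℝ) := by
      refine (sum_le_sum a1).trans ?_
      refine (sum_le_sum_of_subset_of_nonneg (subset_univ F) fun x' _ _ => ?_).trans ?_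
      · by_cases h : ∀ i ∈ U, x i = x' i
        · rw [if_pos h]
          exact hY0
        · rw [if_neg h]
      · rw [← sum_filter, sum_const, nsmul_eq_mul, mul_comm]
    calc _ ≤ Y * ((univ.filter fun x' : PX N q => ∀ i ∈ U, x i = x' i).card : ℝ) *
          (q : ℝ) ^ U.card := mul_le_mul_of_nonneg_right a2 (by positivity)
      _ = Y * (q : ℝ) ^ N := by rw [mul_assoc, card_agree]
  have e6 : (∑ y : PY N q, f y ^ 2) * (q : ℝ) ^ U.card ≤ (q : ℝ) ^ N * (Y * (q : ℝ) ^ N) := by
    rw [e4, sum_mul]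
    refine (sum_le_sum e5).trans ?_
    rw [sum_const, nsmul_eq_mul]
    exact mul_le_mul_of_nonneg_right hF (by positivity)
  rw [e1]
  have hq0 : (0 : ℝ) ≤ (q : ℝ) ^ U.card := by positivity
  have hs0 : (0 : ℝ) ≤ ∑ y : PY N q, f y ^ 2 := sum_nonneg fun _ _ => sq_nonneg _
  calc (∑ y ∈ G, f y) ^ 2 * (q : ℝ) ^ U.card
      ≤ (G.card : ℝ) * (∑ y : PY N q, f y ^ 2) * (q : ℝ) ^ U.card := by
        refine mul_le_mul_of_nonneg_right (e2.trans ?_) hq0
        exact mul_le_mul_of_nonneg_left e3 (Nat.cast_nonneg _)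
    _ = (G.card : ℝ) * ((∑ y : PY N q, f y ^ 2) * (q : ℝ) ^ U.card) := by ring
    _ ≤ Y * ((q : ℝ) ^ N * (Y * (q : ℝ) ^ N)) :=
        mul_le_mul hG e6 (mul_nonneg hs0 hq0) hY0
    _ = ((q : ℝ) ^ N * ((2 : ℝ) ^ q) ^ N) ^ 2 := by
        rw [hY, cardY]
        ring

end Pool.Agent.H99.CPX
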